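import Pool.Agent.W784.RR.Defs

set_option autoImplicit false
open MeasureTheory Set Filter Topology

namespace Pool.Agent.W723.RR

open Pool.Agent.W784.RR

lemma wt_pos (n : ℕ) (q v : ℝ) (h0 : 0 < v) (h1 : v < 1) : 0 < wt n q v := by
  unfold wt
  have : 0 < 1 - v ^ 2 := by nlinarith
  positivity

lemma wt_cont (n : ℕ) (q v : ℝ) (h0 : 0 < v) (h1 : v < 1) : ContinuousAt (wt n q) v := by
  unfold wt
  have h : 0 < 1 - v ^ 2 := by nlinarith
  apply ContinuousAt.mul
  · exact Real.continuousAt_rpow_const _ _ (Or.inl h0.ne')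
  · exact ContinuousAt.rpow_const (f := fun v : ℝ => 1 - v ^ 2) (by fun_prop) (Or.inl h.ne')

lemma wt_meas (n : ℕ) (q : ℝ) : Measurable (wt n q) := by
  unfold wt
  fun_prop

lemma wt_int (n : ℕ) (q : ℝ) (hq : 0 < q) (hqn : q < n) :
    IntervalIntegrable (wt n q) volume 0 1 := by
  apply IntervalIntegrable.trans (b := (1 / 2 : ℝ))
  · unfold wt
    apply IntervalIntegrable.mul_continuousOn
    · exact intervalIntegral.intervalIntegrable_rpow' (by linarith)
    · intro v hv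
      rw [uIcc_of_le (by norm_num)] at hv
      apply ContinuousAt.continuousWithinAt
      apply ContinuousAt.rpow_const (by fun_prop)
      left
      have := hv.1
      have := hv.2
      nlinarith
  · have h1 : IntervalIntegrable (fun v : ℝ => v ^ (((n : ℝ) - q) / 2 - 1)) volume (1 - 1 / 2) (1 - 1) :=
      intervalIntegral.intervalIntegrable_rpow' (by linarith)
    have h2 := h1.comp_sub_left 1
    simp only [sub_sub_cancel] at h2
    have h3 : IntervalIntegrable (fun v : ℝ => (1 - v) ^ (((n : ℝ) - q) / 2 - 1) *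
        (v ^ (q - 1) * (1 + v) ^ (((n : ℝ) - q) / 2 - 1))) volume (1 / 2) 1 := by
      apply h2.mul_continuousOn
      intro v hv
      rw [uIcc_of_le (by norm_num)] at hv
      have := hv.1
      have := hv.2
      apply ContinuousAt.continuousWithinAt
      apply ContinuousAt.mul
      · exact Real.continuousAt_rpow_const _ _ (Or.inl (by linarith))
      · apply ContinuousAt.rpow_const (by fun_prop)
        left
        linarith
    refine h3.congr ?_
    intro v hv
    rw [uIoc_of_le (by norm_num)] at hv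
    have := hv.1
    have := hv.2
    unfold wt
    have h4 : 1 - v ^ 2 = (1 - v) * (1 + v) := by ring
    simp only
    rw [h4, Real.mul_rpow (by linarith) (by linarith)]
    ring

lemma main_aux (n : ℕ) (q : ℝ) (hq : 0 < q) (hqn : q < n) :
  0 < Bc n q ∧ IntervalIntegrable (wt n q) volume 0 1 ∧ Ec n q 0 = 0 ∧
  (∀ κ, 1 ≤ κ → Ec n q κ = 1) ∧ ContinuousOn (Ec n q) (Ici 0) ∧
  StrictMonoOn (Ec n q) (Icc 0 1) ∧ (∀ κ, 0 ≤ κ → 0 ≤ Ec n q κ ∧ Ec n q κ ≤ 1) ∧
  (∀ κ ∈ Ioo (0:ℝ) 1, HasDerivAt (Ec n q) (wt n q κ / Bc n q) κ) ∧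
  (∀ κ ∈ Ioo (0:ℝ) 1, HasDerivAt (Gc n q) (κ ^ 2 * wt n q κ / Bc n q) κ) ∧
  (∀ κ ∈ Icc (0:ℝ) 1, n * Gc n q κ = q * Ec n q κ - Nc n q κ) ∧
  Tendsto (fun κ => Ec n q κ / κ ^ q) (𝓝[>] 0) (𝓝 (mc n q)) := by
  have hI := wt_int n q hq hqn
  have hB : 0 < Bc n q := by
    unfold Bc
    exact intervalIntegral.intervalIntegral_pos_of_pos_on hI
      (fun x hx => wt_pos n q x hx.1 hx.2) (by norm_num)
  have hIsub : ∀ a b : ℝ, a ∈ Icc (0:ℝ) 1 → b ∈ Icc (0:ℝ) 1 → IntervalIntegrable (wt n q) volume a b := by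
    intro a b ha hb
    apply hI.mono_set
    rw [uIcc_of_le (zero_le_one)]
    exact uIcc_subset_Icc ha hb
  have hI2 : IntervalIntegrable (fun v => v ^ 2 * wt n q v) volume 0 1 :=
    hI.continuousOn_mul (by fun_prop)
  have hI2sub : ∀ a b : ℝ, a ∈ Icc (0:ℝ) 1 → b ∈ Icc (0:ℝ) 1 →
      IntervalIntegrable (fun v => v ^ 2 * wt n q v) volume a b := by
    intro a b ha hb
    apply hI2.mono_set
    rw [uIcc_of_le (zero_le_one)]
    exact uIcc_subset_Icc ha hb
  have hmem0 : (0:ℝ) ∈ Icc (0:ℝ) 1 := by simp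
  have hE0 : Ec n q 0 = 0 := by
    unfold Ec
    simp
  have hE1 : ∀ κ, 1 ≤ κ → Ec n q κ = 1 := by
    intro κ hκ
    unfold Ec
    rw [min_eq_right hκ]
    exact div_self hB.ne'
  have hEm : ∀ κ ∈ Icc (0:ℝ) 1, Ec n q κ = (∫ v in (0:ℝ)..κ, wt n q v) / Bc n q := by
    intro κ hκ
    unfold Ec
    rw [min_eq_left hκ.2]
  have hGm : ∀ κ ∈ Icc (0:ℝ) 1, Gc n q κ = (∫ v in (0:ℝ)..κ, v ^ 2 * wt n q v) / Bc n q := by
    intro κ hκ
    unfold Gc
    rw [min_eq_left hκ.2]
  have hmono : StrictMonoOn (Ec n q) (Icc 0 1) := by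
    intro a ha b hb hab
    rw [hEm a ha, hEm b hb]
    apply div_lt_div_of_pos_right _ hB
    rw [← sub_pos, intervalIntegral.integral_interval_sub_left (hIsub 0 b hmem0 hb)
      (hIsub 0 a hmem0 ha)]
    exact intervalIntegral.intervalIntegral_pos_of_pos_on (hIsub a b ha hb)
      (fun x hx => wt_pos n q x (lt_of_le_of_lt ha.1 hx.1) (lt_of_lt_of_le hx.2 hb.2)) hab
  have hbd : ∀ κ, 0 ≤ κ → 0 ≤ Ec n q κ ∧ Ec n q κ ≤ 1 := by
    intro κ hκ
    rcases le_total κ 1 with h | h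
    · constructor
      · rw [← hE0]
        exact hmono.monotoneOn hmem0 ⟨hκ, h⟩ hκ
      · rw [← hE1 1 le_rfl]
        exact hmono.monotoneOn ⟨hκ, h⟩ (by simp) h
    · rw [hE1 κ h]
      norm_num
  have hcont : ContinuousOn (Ec n q) (Ici 0) := by
    have h1 : ContinuousOn (fun x => ∫ v in (0:ℝ)..x, wt n q v) (uIcc 0 1) := by
      apply intervalIntegral.continuousOn_primitive_interval
      rw [uIcc_of_le zero_le_one, integrableOn_Icc_iff_integrableOn_Ioc]
      exact (intervalIntegrable_iff_integrableOn_Ioc_of_le zero_le_one).mp hI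
    rw [uIcc_of_le zero_le_one] at h1
    have h2 : ContinuousOn (fun κ : ℝ => min κ 1) (Ici 0) := by fun_prop
    have h3 := h1.comp h2 (fun κ hκ => ⟨le_min hκ zero_le_one, min_le_right _ _⟩)
    exact h3.div_const _
  have hder : ∀ κ ∈ Ioo (0:ℝ) 1, HasDerivAt (Ec n q) (wt n q κ / Bc n q) κ := by
    intro κ hκ
    have h1 : HasDerivAt (fun u => ∫ v in (0:ℝ)..u, wt n q v) (wt n q κ) κ :=
      intervalIntegral.integral_hasDerivAt_right (hIsub 0 κ hmem0 (Ioo_subset_Icc_self hκ))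
        ((wt_meas n q).stronglyMeasurable.stronglyMeasurableAtFilter) (wt_cont n q κ hκ.1 hκ.2)
    refine (h1.div_const (Bc n q)).congr_of_eventuallyEq ?_
    filter_upwards [Ioo_mem_nhds hκ.1 hκ.2] with u hu
    exact hEm u (Ioo_subset_Icc_self hu)
  have hderG : ∀ κ ∈ Ioo (0:ℝ) 1, HasDerivAt (Gc n q) (κ ^ 2 * wt n q κ / Bc n q) κ := by
    intro κ hκ
    have h1 : HasDerivAt (fun u => ∫ v in (0:ℝ)..u, v ^ 2 * wt n q v) (κ ^ 2 * wt n q κ) κ := by
      apply intervalIntegral.integral_hasDerivAt_right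
        (hI2sub 0 κ hmem0 (Ioo_subset_Icc_self hκ))
      · exact ((measurable_id.pow_const 2).mul (wt_meas n q)).stronglyMeasurable.stronglyMeasurableAtFilter
      · exact ContinuousAt.mul (by fun_prop) (wt_cont n q κ hκ.1 hκ.2)
    refine (h1.div_const (Bc n q)).congr_of_eventuallyEq ?_
    filter_upwards [Ioo_mem_nhds hκ.1 hκ.2] with u hu
    exact hGm u (Ioo_subset_Icc_self hu)
  have hiden : ∀ κ ∈ Icc (0:ℝ) 1, n * Gc n q κ = q * Ec n q κ - Nc n q κ := by
    intro κ hκ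
    have hσ : 0 < ((n : ℝ) - q) / 2 := by linarith
    have h1 : ∫ v in (0:ℝ)..κ, (q * wt n q v - n * (v ^ 2 * wt n q v)) =
        (fun v : ℝ => v ^ q * (1 - v ^ 2) ^ (((n : ℝ) - q) / 2)) κ -
        (fun v : ℝ => v ^ q * (1 - v ^ 2) ^ (((n : ℝ) - q) / 2)) 0 := by
      apply intervalIntegral.integral_eq_sub_of_hasDeriv_right_of_le hκ.1
      · apply ContinuousOn.mul
        · exact (Real.continuous_rpow_const hq.le).continuousOn
        · apply ContinuousOn.rpow_const (by fun_prop)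
          intro x _
          exact Or.inr hσ.le
      · intro v hv
        have hv0 : 0 < v := hv.1
        have hv1 : v < 1 := lt_of_lt_of_le hv.2 hκ.2
        have hw : 0 < 1 - v ^ 2 := by nlinarith
        apply HasDerivAt.hasDerivWithinAt
        have e1 : HasDerivAt (fun v : ℝ => v ^ q) (q * v ^ (q - 1)) v :=
          Real.hasDerivAt_rpow_const (Or.inl hv0.ne')
        have e2 : HasDerivAt (fun v : ℝ => 1 - v ^ 2) (-(2 * v)) v := by
          have := (hasDerivAt_pow 2 v).const_sub 1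
          simpa using this
        have e3 := e2.rpow_const (p := ((n : ℝ) - q) / 2) (Or.inl hw.ne')
        have e4 := e1.mul e3
        refine e4.congr_deriv ?_
        unfold wt
        have e5 : v ^ q = v ^ (q - 1) * v := by
          rw [← Real.rpow_add_one hv0.ne']
          congr 1; ring
        have e6 : (1 - v ^ 2) ^ (((n : ℝ) - q) / 2) =
            (1 - v ^ 2) ^ (((n : ℝ) - q) / 2 - 1) * (1 - v ^ 2) := by
          rw [← Real.rpow_add_one hw.ne']
          congr 1; ring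
        rw [e5, e6]
        ring
      · exact ((hIsub 0 κ hmem0 hκ).const_mul q).sub ((hI2sub 0 κ hmem0 hκ).const_mul n)
    rw [intervalIntegral.integral_sub ((hIsub 0 κ hmem0 hκ).const_mul q)
      ((hI2sub 0 κ hmem0 hκ).const_mul n), intervalIntegral.integral_const_mul,
      intervalIntegral.integral_const_mul] at h1
    simp only [Real.zero_rpow hq.ne', zero_mul, sub_zero] at h1
    rw [hEm κ hκ, hGm κ hκ, Nc, ← h1]
    ring
  refine ⟨hB, hI, hE0, hE1, hcont, hmono, hbd, hder, hderG, hiden, ?_⟩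
  -- the limit
  have hG0 : ∀ κ ∈ Ioo (0:ℝ) 1, 0 ≤ Gc n q κ ∧ Gc n q κ ≤ κ ^ 2 * Ec n q κ := by
    intro κ hκ
    have hκ' := Ioo_subset_Icc_self hκ
    rw [hGm κ hκ', hEm κ hκ']
    constructor
    · apply div_nonneg _ hB.le
      apply intervalIntegral.integral_nonneg hκ.1.le
      intro v hv
      have : 0 ≤ wt n q v := by
        unfold wt
        have h1 := hv.1
        have h2 : v ≤ 1 := hv.2.trans hκ.2.le
        have : 0 ≤ 1 - v ^ 2 := by nlinarith
        positivity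
      positivity
    · rw [← mul_div_assoc]
      apply div_le_div_of_nonneg_right _ hB.le
      rw [← intervalIntegral.integral_const_mul]
      apply intervalIntegral.integral_mono_on hκ.1.le (hI2sub 0 κ hmem0 hκ')
        ((hIsub 0 κ hmem0 hκ').const_mul _)
      intro v hv
      have : 0 ≤ wt n q v := by
        unfold wt
        have h1 := hv.1
        have h2 : v ≤ 1 := hv.2.trans hκ.2.le
        have : 0 ≤ 1 - v ^ 2 := by nlinarith
        positivity
      have h3 : v ^ 2 ≤ κ ^ 2 := pow_le_pow_left₀ hv.1 hv.2 2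
      exact mul_le_mul_of_nonneg_right h3 this
  have hcs : Tendsto (fun κ : ℝ => (1 - κ ^ 2) ^ (((n : ℝ) - q) / 2)) (𝓝[>] 0) (𝓝 1) := by
    have : ContinuousAt (fun κ : ℝ => (1 - κ ^ 2) ^ (((n : ℝ) - q) / 2)) 0 := by
      apply ContinuousAt.rpow_const (by fun_prop)
      left
      norm_num
    have h2 := this.tendsto
    simp only [ne_eq, OfNat.ofNat_ne_zero, not_false_eq_true, zero_pow, sub_zero,
      Real.one_rpow] at h2
    exact h2.mono_left nhdsWithin_le_nhds
  have hlow : Tendsto (fun κ : ℝ => (1 - κ ^ 2) ^ (((n : ℝ) - q) / 2) / (q * Bc n q)) (𝓝[>] 0)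
      (𝓝 (mc n q)) := hcs.div_const _
  have hup : Tendsto (fun κ : ℝ => (1 - κ ^ 2) ^ (((n : ℝ) - q) / 2) / ((q - n * κ ^ 2) * Bc n q))
      (𝓝[>] 0) (𝓝 (mc n q)) := by
    unfold mc
    apply hcs.div _ (by positivity)
    have : ContinuousAt (fun κ : ℝ => (q - n * κ ^ 2) * Bc n q) 0 := by fun_prop
    have h2 := this.tendsto
    simp only [ne_eq, OfNat.ofNat_ne_zero, not_false_eq_true, zero_pow, mul_zero, sub_zero] at h2
    exact h2.mono_left nhdsWithin_le_nhds
  have hev : ∀ᶠ κ : ℝ in 𝓝[>] 0, 0 < κ ∧ κ < 1 ∧ 0 < q - n * κ ^ 2 := by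
    have h1 : ∀ᶠ κ : ℝ in 𝓝 0, κ < 1 := gt_mem_nhds (by norm_num)
    have h2 : ∀ᶠ κ : ℝ in 𝓝 0, 0 < q - n * κ ^ 2 := by
      have : ContinuousAt (fun κ : ℝ => q - n * κ ^ 2) 0 := by fun_prop
      apply this.eventually (lt_mem_nhds _)
      simpa using hq
    filter_upwards [self_mem_nhdsWithin, nhdsWithin_le_nhds h1, nhdsWithin_le_nhds h2] with κ a b c
    exact ⟨a, b, c⟩
  refine tendsto_of_tendsto_of_tendsto_of_le_of_le' hlow hup ?_ ?_
  · filter_upwards [hev] with κ hκ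
    obtain ⟨k0, k1, k2⟩ := hκ
    have h1 := hiden κ ⟨k0.le, k1.le⟩
    have h2 := (hG0 κ ⟨k0, k1⟩).1
    have hkq : 0 < κ ^ q := Real.rpow_pos_of_pos k0 q
    unfold Nc at h1
    rw [div_le_div_iff₀ (by positivity) hkq]
    have h3 : κ ^ q * (1 - κ ^ 2) ^ (((n : ℝ) - q) / 2) / Bc n q ≤ q * Ec n q κ := by
      have : (0:ℝ) ≤ n := Nat.cast_nonneg n
      have := mul_nonneg this h2
      linarith
    rw [div_le_iff₀ hB] at h3
    linarith
  · filter_upwards [hev] with κ hκ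
    obtain ⟨k0, k1, k2⟩ := hκ
    have h1 := hiden κ ⟨k0.le, k1.le⟩
    have h2 := (hG0 κ ⟨k0, k1⟩).2
    have hkq : 0 < κ ^ q := Real.rpow_pos_of_pos k0 q
    unfold Nc at h1
    rw [div_le_div_iff₀ hkq (by positivity)]
    have h3 : (q - n * κ ^ 2) * Ec n q κ ≤
        κ ^ q * (1 - κ ^ 2) ^ (((n : ℝ) - q) / 2) / Bc n q := by
      have h4 : (0:ℝ) ≤ n := Nat.cast_nonneg n
      have := mul_le_mul_of_nonneg_left h2 h4
      linarith
    rw [le_div_iff₀ hB] at h3
    linarith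

theorem pcalc : Pool.Agent.W784.RR.PCalc := main_aux

end Pool.Agent.W723.RR
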