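import Pool.Agent.W784.RR.Defs

set_option autoImplicit false
open MeasureTheory Set Filter Topology

namespace Pool.Agent.W723.RR

open Pool.Agent.W784.RR

lemma hasDerivAt_gg (a b κ : ℝ) (h0 : 0 < κ) (h1 : κ < 1) :
    HasDerivAt (fun κ : ℝ => κ ^ a * (1 - κ ^ 2) ^ b)
      (a * κ ^ (a - 1) * (1 - κ ^ 2) ^ b + κ ^ a * (-(2 * κ) * b * (1 - κ ^ 2) ^ (b - 1))) κ := by
  have hw : 0 < 1 - κ ^ 2 := by nlinarith
  have e1 : HasDerivAt (fun v : ℝ => v ^ a) (a * κ ^ (a - 1)) κ :=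
    Real.hasDerivAt_rpow_const (Or.inl h0.ne')
  have e2 : HasDerivAt (fun v : ℝ => 1 - v ^ 2) (-(2 * κ)) κ := by
    have := (hasDerivAt_pow 2 κ).const_sub 1
    simpa using this
  have e3 := e2.rpow_const (p := b) (Or.inl hw.ne')
  exact e1.mul e3

lemma contDiffAt_gg (a b κ : ℝ) (m : WithTop ℕ∞) (h0 : 0 < κ) (h1 : κ < 1) :
    ContDiffAt ℝ m (fun κ : ℝ => κ ^ a * (1 - κ ^ 2) ^ b) κ := by
  have hw : 0 < 1 - κ ^ 2 := by nlinarith
  apply ContDiffAt.mul
  · exact contDiffAt_id.rpow_const_of_ne h0.ne'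
  · have : ContDiffAt ℝ m (fun κ : ℝ => 1 - κ ^ 2) κ := by fun_prop
    exact this.rpow_const_of_ne hw.ne'

theorem ph (hP : Pool.Agent.W784.RR.PCalc) : Pool.Agent.W784.RR.PH := by
  intro n p q hp hpq hqn
  have hq : 0 < q := hp.trans hpq
  obtain ⟨hBq, -, hE0, hE1, hcont, hmono, hbd, hder, -, -, hlim⟩ := hP n q hq hqn
  obtain ⟨hBp, -, hE0p, hE1p, hcontp, hmonop, hbdp, hderp, -, -, hlimp⟩ := hP n p hp (hpq.trans hqn)
  -- the inverse function
  set φ : ℝ → ℝ := Function.invFunOn (Ec n q) (Icc 0 1) with hφ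
  have hE1' : Ec n q 1 = 1 := hE1 1 le_rfl
  have hcontI : ContinuousOn (Ec n q) (Icc 0 1) := hcont.mono Icc_subset_Ici_self
  have hsurj : SurjOn (Ec n q) (Icc 0 1) (Icc 0 1) := by
    have := ContinuousOn.surjOn_Icc hcontI (a := 0) (b := 1) (by simp) (by simp)
    rwa [hE0, hE1'] at this
  have hmem : ∀ t ∈ Icc (0:ℝ) 1, φ t ∈ Icc (0:ℝ) 1 := fun t ht =>
    Function.invFunOn_mem (hsurj ht)
  have hEφ : ∀ t ∈ Icc (0:ℝ) 1, Ec n q (φ t) = t := fun t ht =>
    Function.invFunOn_eq (hsurj ht)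
  have hφE : ∀ κ ∈ Icc (0:ℝ) 1, φ (Ec n q κ) = κ := by
    intro κ hκ
    have h1 : Ec n q κ ∈ Icc (0:ℝ) 1 := hbd κ hκ.1
    exact hmono.injOn (hmem _ h1) hκ (hEφ _ h1)
  have hφ0 : φ 0 = 0 := by
    have := hφE 0 (by simp)
    rwa [hE0] at this
  have hφ1 : φ 1 = 1 := by
    have := hφE 1 (by simp)
    rwa [hE1'] at this
  have hφmono : StrictMonoOn φ (Icc 0 1) := by
    intro a ha b hb hab
    by_contra h
    push Not at h
    have := hmono.monotoneOn (hmem b hb) (hmem a ha) h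
    rw [hEφ a ha, hEφ b hb] at this
    linarith
  have himg : φ '' (Icc 0 1) = Icc (0:ℝ) 1 := by
    apply Subset.antisymm
    · rintro _ ⟨t, ht, rfl⟩
      exact hmem t ht
    · intro κ hκ
      exact ⟨Ec n q κ, hbd κ hκ.1, hφE κ hκ⟩
  have hIoo : ∀ t ∈ Ioo (0:ℝ) 1, φ t ∈ Ioo (0:ℝ) 1 := by
    intro t ht
    have ht' := Ioo_subset_Icc_self ht
    constructor
    · have := hφmono (by simp) ht' ht.1
      rwa [hφ0] at this
    · have := hφmono ht' (by simp) ht.2
      rwa [hφ1] at this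
  have hφcont : ContinuousOn φ (Icc 0 1) := by
    intro t ht
    rcases eq_or_lt_of_le ht.1 with h0 | h0
    · subst h0
      have h1 : ContinuousWithinAt φ (Ici 0) 0 := by
        apply continuousWithinAt_right_of_monotoneOn_of_image_mem_nhdsWithin
          hφmono.monotoneOn (Icc_mem_nhdsGE (by norm_num))
        rw [himg, hφ0]
        exact Icc_mem_nhdsGE (by norm_num)
      exact h1.mono Icc_subset_Ici_self
    · rcases eq_or_lt_of_le ht.2 with h1 | h1
      · subst h1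
        have h1 : ContinuousWithinAt φ (Iic 1) 1 := by
          apply continuousWithinAt_left_of_monotoneOn_of_image_mem_nhdsWithin
            hφmono.monotoneOn (Icc_mem_nhdsLE (by norm_num))
          rw [himg, hφ1]
          exact Icc_mem_nhdsLE (by norm_num)
        exact h1.mono Icc_subset_Iic_self
      · apply ContinuousAt.continuousWithinAt
        apply continuousAt_of_monotoneOn_of_image_mem_nhds hφmono.monotoneOn (Icc_mem_nhds h0 h1)
        rw [himg]
        have := hIoo t ⟨h0, h1⟩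
        exact Icc_mem_nhds this.1 this.2
  have hφat : ∀ t ∈ Ioo (0:ℝ) 1, ContinuousAt φ t := fun t ht =>
    hφcont.continuousAt (Icc_mem_nhds ht.1 ht.2)
  have hwpos : ∀ κ ∈ Ioo (0:ℝ) 1, 0 < wt n q κ := by
    intro κ hκ
    unfold wt
    have h1 := hκ.1
    have h2 := hκ.2
    have : 0 < 1 - κ ^ 2 := by nlinarith
    positivity
  have hwposp : ∀ κ ∈ Ioo (0:ℝ) 1, 0 < wt n p κ := by
    intro κ hκ
    unfold wt
    have h1 := hκ.1
    have h2 := hκ.2
    have : 0 < 1 - κ ^ 2 := by nlinarith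
    positivity
  have hφder : ∀ t ∈ Ioo (0:ℝ) 1, HasDerivAt φ (Bc n q / wt n q (φ t)) t := by
    intro t ht
    have h1 := hder (φ t) (hIoo t ht)
    have h2 := HasDerivAt.of_local_left_inverse (hφat t ht) h1
      (div_pos (hwpos _ (hIoo t ht)) hBq).ne' ?_
    · refine h2.congr_deriv ?_
      rw [inv_div]
    · filter_upwards [Ioo_mem_nhds ht.1 ht.2] with u hu
      exact hEφ u (Ioo_subset_Icc_self hu)
  -- the function
  set h : ℝ → ℝ := fun t => Ec n p (φ t) with hh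
  set g : ℝ → ℝ := fun κ => Bc n q / Bc n p * (κ ^ (p - q) * (1 - κ ^ 2) ^ ((q - p) / 2)) with hg
  have hratio : ∀ κ ∈ Ioo (0:ℝ) 1, wt n p κ / Bc n p * (Bc n q / wt n q κ) = g κ := by
    intro κ hκ
    have h1 := hκ.1
    have h2 := hκ.2
    have hw : 0 < 1 - κ ^ 2 := by nlinarith
    simp only [hg, wt]
    have e1 : κ ^ (p - 1) = κ ^ (p - q) * κ ^ (q - 1) := by
      rw [← Real.rpow_add h1]; congr 1; ring
    have e2 : (1 - κ ^ 2) ^ (((n : ℝ) - p) / 2 - 1) =
        (1 - κ ^ 2) ^ ((q - p) / 2) * (1 - κ ^ 2) ^ (((n : ℝ) - q) / 2 - 1) := by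
      rw [← Real.rpow_add hw]; congr 1; ring
    rw [e1, e2]
    have h3 : 0 < κ ^ (q - 1) := Real.rpow_pos_of_pos h1 _
    have h4 : 0 < (1 - κ ^ 2) ^ (((n : ℝ) - q) / 2 - 1) := Real.rpow_pos_of_pos hw _
    field_simp
  have hhder : ∀ t ∈ Ioo (0:ℝ) 1, HasDerivAt h (g (φ t)) t := by
    intro t ht
    have h1 := (hderp (φ t) (hIoo t ht)).comp t (hφder t ht)
    rw [hratio _ (hIoo t ht)] at h1
    exact h1
  have hgpos : ∀ κ ∈ Ioo (0:ℝ) 1, 0 < g κ := by
    intro κ hκ
    rw [← hratio κ hκ]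
    have := hwpos κ hκ
    have := hwposp κ hκ
    positivity
  have hgder : ∀ κ ∈ Ioo (0:ℝ) 1, HasDerivAt g (-(q - p) * g κ / (κ * (1 - κ ^ 2))) κ := by
    intro κ hκ
    have h1 := hκ.1
    have h2 := hκ.2
    have hw : 0 < 1 - κ ^ 2 := by nlinarith
    have h3 := (hasDerivAt_gg (p - q) ((q - p) / 2) κ h1 h2).const_mul (Bc n q / Bc n p)
    refine h3.congr_deriv ?_
    simp only [hg]
    rw [Real.rpow_sub_one h1.ne', Real.rpow_sub_one hw.ne']
    field_simp
    ring
  have hφC1 : ContDiffOn ℝ 1 φ (Ioo 0 1) := by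
    rw [show (1 : WithTop ℕ∞) = 0 + 1 by norm_num, contDiffOn_succ_iff_deriv_of_isOpen isOpen_Ioo]
    refine ⟨fun t ht => (hφder t ht).differentiableAt.differentiableWithinAt, by simp, ?_⟩
    rw [contDiffOn_zero]
    have : ContinuousOn (fun t => Bc n q / wt n q (φ t)) (Ioo 0 1) := by
      intro t ht
      apply ContinuousAt.continuousWithinAt
      apply ContinuousAt.div continuousAt_const
      · have h1 : ContinuousAt (wt n q) (φ t) := by
          have := hIoo t ht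
          exact (contDiffAt_gg (q - 1) (((n : ℝ) - q) / 2 - 1) (φ t) 0 this.1 this.2).continuousAt
        exact ContinuousAt.comp h1 (hφat t ht)
      · exact (hwpos _ (hIoo t ht)).ne'
    exact this.congr (fun t ht => (hφder t ht).deriv)
  have hderh : ∀ t ∈ Ioo (0:ℝ) 1, deriv h t = g (φ t) := fun t ht => (hhder t ht).deriv
  have hC2 : ContDiffOn ℝ 2 h (Ioo 0 1) := by
    rw [show (2 : WithTop ℕ∞) = 1 + 1 by norm_num, contDiffOn_succ_iff_deriv_of_isOpen isOpen_Ioo]
    refine ⟨fun t ht => (hhder t ht).differentiableAt.differentiableWithinAt, by simp, ?_⟩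
    have : ContDiffOn ℝ 1 (fun t => g (φ t)) (Ioo 0 1) := by
      have h1 : ContDiffOn ℝ 1 g (Ioo 0 1) := by
        intro κ hκ
        apply ContDiffAt.contDiffWithinAt
        exact contDiffAt_const.mul (contDiffAt_gg (p - q) ((q - p) / 2) κ 1 hκ.1 hκ.2)
      exact h1.comp hφC1 (fun t ht => hIoo t ht)
    exact this.congr hderh
  refine ⟨h, ?_, ?_, ?_, ?_, ?_, ?_⟩
  · exact (hcontp.mono Icc_subset_Ici_self).comp hφcont (fun t ht => hmem t ht)
  · simp only [hh, hφ0, hE0p]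
  · simp only [hh, hφ1, hE1p 1 le_rfl]
  · intro t ht
    exact hbdp (φ t) (hmem t ht).1
  · intro t ht
    refine ⟨hC2.contDiffAt (Ioo_mem_nhds ht.1 ht.2), ?_, φ t, hIoo t ht,
      hEφ t (Ioo_subset_Icc_self ht), ?_⟩
    · rw [hderh t ht]
      exact hgpos _ (hIoo t ht)
    · have hκ := hIoo t ht
      have h1 := (hgder (φ t) hκ).comp t (hφder t ht)
      have h2 : HasDerivAt (deriv h) (-(q - p) * g (φ t) / (φ t * (1 - φ t ^ 2)) *
          (Bc n q / wt n q (φ t))) t := by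
        refine h1.congr_of_eventuallyEq ?_
        filter_upwards [Ioo_mem_nhds ht.1 ht.2] with u hu
        exact hderh u hu
      rw [h2.deriv, hderh t ht]
      set κ := φ t
      have k1 := hκ.1
      have k2 := hκ.2
      have hw : 0 < 1 - κ ^ 2 := by nlinarith
      unfold Nc wt
      rw [Real.rpow_sub_one k1.ne', Real.rpow_sub_one hw.ne']
      have h3 : 0 < κ ^ q := Real.rpow_pos_of_pos k1 _
      have h4 : 0 < (1 - κ ^ 2) ^ (((n : ℝ) - q) / 2) := Real.rpow_pos_of_pos hw _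
      field_simp
  · -- the limit at zero
    have hmq : 0 < mc n q := by unfold mc; positivity
    have hφlim : Tendsto φ (𝓝[>] 0) (𝓝[>] 0) := by
      rw [tendsto_nhdsWithin_iff]
      constructor
      · have h1 : ContinuousWithinAt φ (Icc 0 1) 0 := hφcont 0 (by simp)
        have h2 : Tendsto φ (𝓝[Icc 0 1] 0) (𝓝 0) := by
          have := h1.tendsto
          rwa [hφ0] at this
        refine h2.mono_left ?_
        rw [← nhdsWithin_Ioc_eq_nhdsGT (show (0:ℝ) < 1 by norm_num)]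
        exact nhdsWithin_mono _ Ioc_subset_Icc_self
      · filter_upwards [Ioo_mem_nhdsGT (show (0:ℝ) < 1 by norm_num)] with t ht
        exact (hIoo t ht).1
    have h1 := hlim.comp hφlim
    have h2 := hlimp.comp hφlim
    have h3 := h1.rpow_const (p := p / q) (Or.inl hmq.ne')
    have h4 := h2.div h3 (Real.rpow_pos_of_pos hmq _).ne'
    refine h4.congr' ?_
    filter_upwards [Ioo_mem_nhdsGT (show (0:ℝ) < 1 by norm_num)] with t ht
    have hκ := hIoo t ht
    simp only [Function.comp, hh, Pi.div_apply]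
    have h5 : Ec n q (φ t) = t := hEφ t (Ioo_subset_Icc_self ht)
    rw [h5, Real.div_rpow ht.1.le (Real.rpow_nonneg hκ.1.le _), ← Real.rpow_mul hκ.1.le,
      mul_div_cancel₀ _ hq.ne']
    have h6 : 0 < (φ t) ^ p := Real.rpow_pos_of_pos hκ.1 _
    have h7 : 0 < t ^ (p / q) := Real.rpow_pos_of_pos ht.1 _
    field_simp

end Pool.Agent.W723.RR
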